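import Pool.Agent.Helper22.TB.Goals

/-!
# Project TB (MP_74f661_nt), packet MP: upper bounds of Mertens type
-/

set_option autoImplicit false

open Finset Filter Topology
open Pool.Agent.Helper90.Twin (Ps Gz mem_Ps)
open scoped Classical

namespace Pool.Agent.Helper96.TB

open Pool.Agent.Helper22.TB Helper56

theorem ax_bounded : ∃ C : ℝ, 0 < C ∧ ∀ n : ℕ, |ax n - Real.log (Real.log n)| ≤ C := by
  have h := ax_sub_loglog_tendsto.comp (tendsto_natCast_atTop_atTop (R := ℝ))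
  obtain ⟨C, hC⟩ := isBounded_iff_forall_norm_le.1 (Metric.isBounded_range_of_tendsto _ h)
  refine ⟨|C| + 1, by positivity, fun n => ?_⟩
  have h1 := hC _ ⟨n, rfl⟩
  rw [Real.norm_eq_abs] at h1
  have h2 : |ax n - Real.log (Real.log n)| ≤ C := h1
  linarith [le_abs_self C]

theorem inv_le {p : ℕ} (h5 : 2 ≤ p) : (0 : ℝ) ≤ 1 / (p : ℝ) ∧ 1 / (p : ℝ) ≤ 1 / 2 := by
  have h : (2 : ℝ) ≤ p := by exact_mod_cast h5
  exact ⟨by positivity, one_div_le_one_div_of_le (by norm_num) h⟩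

theorem al_nonneg' (n : ℕ) : 0 ≤ al n := by
  unfold al
  split_ifs with h
  · have := (neg_log_bounds (inv_le h.two_le).1 (inv_le h.two_le).2).1
    linarith [(inv_le h.two_le).1]
  · exact le_rfl

theorem al_ge {p x : ℕ} (hp : p ∈ Ps x) : 1 / (p : ℝ) ≤ al p := by
  rw [mem_Ps] at hp
  unfold al
  rw [if_pos hp.2.2]
  exact (neg_log_bounds (inv_le hp.2.2.two_le).1 (inv_le hp.2.2.two_le).2).1

theorem sum_al_le (x : ℕ) : ∑ p ∈ Ps x, al p ≤ ax x := by
  unfold ax
  rw [Nat.floor_natCast]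
  refine sum_le_sum_of_subset_of_nonneg ?_ fun i _ _ => al_nonneg' i
  intro p hp
  rw [mem_Ps] at hp
  rw [mem_Ioc]
  omega

theorem ax_le (x : ℕ) : ax x ≤ al 2 + al 3 + ∑ p ∈ Ps x, al p := by
  unfold ax
  rw [Nat.floor_natCast]
  have h1 : ∑ n ∈ (Ioc 0 x).filter Nat.Prime, al n = ∑ n ∈ Ioc 0 x, al n := by
    apply sum_filter_of_ne
    intro n _ hn
    by_contra h
    apply hn
    unfold al
    rw [if_neg h]
  rw [← h1]
  have h2 : (Ioc 0 x).filter Nat.Prime ⊆ insert 2 (insert 3 (Ps x)) := by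
    intro n hn
    rw [mem_filter, mem_Ioc] at hn
    rw [mem_insert, mem_insert, mem_Ps]
    by_cases h2 : n = 2
    · exact Or.inl h2
    by_cases h3 : n = 3
    · exact Or.inr (Or.inl h3)
    have h4 : n ≠ 4 := by
      rintro rfl
      exact absurd hn.2 (by norm_num)
    have := hn.2.two_le
    exact Or.inr (Or.inr ⟨by omega, hn.1.2, hn.2⟩)
  refine (sum_le_sum_of_subset_of_nonneg h2 fun i _ _ => al_nonneg' i).trans (le_of_eq ?_)
  rw [sum_insert, sum_insert, add_assoc]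
  · intro h
    rw [mem_Ps] at h
    omega
  · intro h
    rw [mem_insert, mem_Ps] at h
    omega

theorem prod_eq (x : ℕ) : ∏ p ∈ Ps x, (1 - 1 / (p : ℝ)) = Real.exp (-∑ p ∈ Ps x, al p) := by
  rw [← sum_neg_distrib, Real.exp_sum]
  refine prod_congr rfl fun p hp => ?_
  rw [mem_Ps] at hp
  unfold al
  rw [if_pos hp.2.2, neg_neg, Real.exp_log]
  linarith [(inv_le hp.2.2.two_le).2]

theorem log_pos3 {x : ℕ} (hx : 3 ≤ x) : 0 < Real.log x := by
  have h : (3 : ℝ) ≤ x := by exact_mod_cast hx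
  exact Real.log_pos (by linarith)

theorem gMP : G_MP := by
  obtain ⟨C, hC, hax⟩ := ax_bounded
  have h1 : ∀ x : ℕ, ∑ p ∈ Ps x, 1 / (p : ℝ) ≤ Real.log (Real.log x) + C := by
    intro x
    have := (sum_le_sum fun p hp => al_ge hp).trans (sum_al_le x)
    have h2 := (abs_le.1 (hax x)).2
    linarith
  refine ⟨⟨C, hC, fun x _ => h1 x⟩, ?_, ?_⟩
  · intro k hk
    refine ⟨Real.exp (k * C), Real.exp_pos _, fun x hx => ?_⟩
    have hlog := log_pos3 hx
    have h2 : ∏ p ∈ Ps x, (1 + k / (p : ℝ)) ≤ Real.exp (∑ p ∈ Ps x, k / (p : ℝ)) := by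
      rw [Real.exp_sum]
      refine prod_le_prod (fun p _ => by positivity) fun p _ => ?_
      rw [add_comm]
      exact Real.add_one_le_exp _
    refine h2.trans ?_
    rw [Real.rpow_def_of_pos hlog, ← Real.exp_add, Real.exp_le_exp]
    have h3 : ∑ p ∈ Ps x, k / (p : ℝ) = k * ∑ p ∈ Ps x, 1 / (p : ℝ) := by
      rw [mul_sum]
      exact sum_congr rfl fun p _ => by ring
    rw [h3]
    have := mul_le_mul_of_nonneg_left (h1 x) hk
    linarith
  · refine ⟨Real.exp (al 2 + al 3 + C), Real.exp_pos _, fun x hx => ?_⟩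
    have hlog := log_pos3 hx
    have h2 := (abs_le.1 (hax x)).1
    have h3 := ax_le x
    have h4 : Real.log x = Real.exp (Real.log (Real.log x)) := (Real.exp_log hlog).symm
    rw [prod_eq, le_div_iff₀ hlog, h4, ← Real.exp_add, Real.exp_le_exp]
    linarith

end Pool.Agent.Helper96.TB
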